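import Pool.Agent.V5helper83.EQ.EvenTor
import Pool.Agent.V5helper83.EQ.EvenSqf
import Pool.Agent.V5helper83.EQ.EvenTwo
import Pool.Agent.V5helper88.TQ.Int
set_option autoImplicit false

/-!
Beilinson's regulator conjecture (`K_2` of curves, full rank at a complex place): the hyperelliptic
curves `v² = u (T(u)² - 4)` of every genus `h = deg T ≥ 1` over number fields, in terms of the
critical values of `T` and `T(0)` only. These are the quotients of the curves `z + 1/z = T(x²)` of
genus `2 h - 1` by the involution `(x, z) ↦ (-x, 1/z)`, where `u = x²` and `v = x (z - 1/z)`.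
-/

namespace Pool.Agent.Results.MP_743d1e_nt.EvenQuotients

open Polynomial

open Pool.Agent.V5helper83.EQ

open Pool.Agent.V5helper83.EQ.Even (D UnramifiedSymbols IndependentRegulators natDegree_D isDomain
  unramified independent squarefree_D loops_two)

open Pool.Agent.V5helper88.TQ (sqrt_even int_even crit_Fe Fe Cond)

/-- At the complex place `s`, the sum of the distances of `w` from the points `2` and `-2` is greater
than `ρ` for `w = T(0)` and for each critical value `w` of `T`. -/
def CritOutside {K : Type*} [Field K] (s : K →+* ℂ) (T : K[X]) (ρ : ℝ) : Prop :=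
  ∀ u : ℂ, u * (derivative T).eval₂ s u = 0 → ρ < ‖T.eval₂ s u - 2‖ + ‖T.eval₂ s u + 2‖

/-- `κ` is of the form `ζ + 1/ζ` with a root of unity `ζ` of the algebraic closure. -/
def Cyclotomic {K : Type*} [Field K] (κ : K) : Prop :=
  ∃ (ζ : AlgebraicClosure K) (k : ℕ), k ≠ 0 ∧ ζ ^ k = 1 ∧
    algebraMap K (AlgebraicClosure K) κ = ζ + ζ⁻¹

/-- The points `s (b_i)²` lie in different connected components of the inverse image of the interval
`[-2, 2]` under `T` at the complex place `s`. -/
def DifferentArcs {K : Type*} [Field K] (s : K →+* ℂ) (T : K[X]) {h : ℕ} (b : Fin h → K) : Prop :=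
  Function.Injective fun i =>
    connectedComponentIn {u : ℂ | ∃ t : ℝ, |t| ≤ 2 ∧ T.eval₂ s u = t} (s (b i) ^ 2)

/-- The regulators at the complex place `s` of the curve `v² = u (T(u)² - 4)`: if the critical values
of `T` and `T(0)` are outside of the ellipses, then `D` is squarefree, and the regulators of `h`
symbols are independent. -/
def RegulatorsAt {K : Type*} [Field K] (h : ℕ) (s : K →+* ℂ) (T : K[X]) : Prop :=
  (CritOutside s T 4 → Squarefree (D T)) ∧
  (CritOutside s T 5 → ∀ b : Fin h → K, (∀ i, b i ≠ 0) → (∀ i, Cyclotomic (T.eval (b i ^ 2))) →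
    DifferentArcs s T b → IndependentRegulators s T b) ∧
  (CritOutside s T (3 * √2) → ∀ b : Fin h → K, (∀ i, b i ≠ 0) → (∀ i, T.eval (b i ^ 2) = 0) →
    (Function.Injective fun i => b i ^ 2) → IndependentRegulators s T b)

/-- The polynomial `m (u - b_1²) ... (u - b_h²)` with rational integers `m` and `b_i`. -/
noncomputable def intPoly {h : ℕ} (m : ℤ) (b : Fin h → ℤ) : ℚ[X] :=
  C (m : ℚ) * ∏ i, (X - C ((b i : ℚ) ^ 2))

theorem Cyclotomic.exists_root {K : Type*} [Field K] {κ : K} (h : Cyclotomic κ) (s : K →+* ℂ) :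
    ∃ (ζ : ℂ) (k : ℕ), k ≠ 0 ∧ ζ ^ k = 1 ∧ s κ = ζ + ζ⁻¹ := by
  obtain ⟨ζ, k, hk, h1, h2⟩ := h
  let _ := s.toAlgebra
  set f : AlgebraicClosure K →ₐ[K] ℂ := IsAlgClosed.lift with hf
  refine ⟨f ζ, k, hk, by rw [← map_pow, h1, map_one], ?_⟩
  have h3 : f (algebraMap K (AlgebraicClosure K) κ) = s κ := f.commutes κ
  rw [← h3, h2, map_add, map_inv₀]

theorem cyclotomic_zero : Cyclotomic (0 : ℚ) := by
  obtain ⟨ζ, h6⟩ := IsAlgClosed.exists_pow_nat_eq (k := AlgebraicClosure ℚ) (-1) two_pos
  refine ⟨ζ, 4, by norm_num, ?_, ?_⟩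
  · calc ζ ^ 4 = (ζ ^ 2) ^ 2 := by ring
      _ = 1 := by rw [h6]; norm_num
  · have h7 : ζ ≠ 0 := by
      intro h8
      rw [h8] at h6
      norm_num at h6
    rw [map_zero]
    field_simp
    rw [h6]
    norm_num

theorem crit {K : Type*} [Field K] {s : K →+* ℂ} {T : K[X]} {ρ : ℝ} (h : CritOutside s T ρ) (x : ℂ)
    (hx : (derivative ((T.map s).comp (X ^ 2))).eval x = 0) :
    ρ < ‖((T.map s).comp (X ^ 2)).eval x - 2‖ + ‖((T.map s).comp (X ^ 2)).eval x + 2‖ := by
  have h1 : (derivative ((T.map s).comp (X ^ 2))).eval x =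
      2 * x * (derivative T).eval₂ s (x ^ 2) := by
    rw [derivative_comp, derivative_X_pow, eval_mul, eval_comp, eval_pow, eval_X, derivative_map,
      eval_map]
    simp
  rw [h1] at hx
  have h2 : ((T.map s).comp (X ^ 2)).eval x = T.eval₂ s (x ^ 2) := by
    rw [eval_comp, eval_pow, eval_X, eval_map]
  rw [h2]
  refine h _ ?_
  linear_combination x / 2 * hx

/-- The criterion: the conclusions for the polynomial `T` of degree `h`. -/
theorem criterion.{u, v} (h : ℕ) (hh : 1 ≤ h) (K : Type u) [Field K] [NumberField K] (T : K[X])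
    (hT : ∀ i, IsIntegral ℤ (T.coeff i)) (hdeg : T.natDegree = h) :
    (D T).natDegree = 2 * h + 1 ∧ IsDomain (CRing (D T)) ∧
    (∀ (r : ℕ) (b : Fin r → K), (∀ i, IsIntegral ℤ (b i)) →
      (∀ i, Cyclotomic (T.eval (b i ^ 2))) → UnramifiedSymbols.{u, v} T b) ∧
    ∀ s : K →+* ℂ, RegulatorsAt h s T := by
  have hT1 : 1 ≤ T.natDegree := by omega
  refine ⟨by rw [natDegree_D hT1, hdeg], isDomain hT1, fun r b hb hκ => ?_, fun s =>
    ⟨fun hc => ?_, fun hc b h0 hκ hinj => ?_, fun hc b h0 hb hinj => ?_⟩⟩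
  · obtain ⟨s⟩ : Nonempty (K →+* ℂ) := inferInstance
    exact unramified.{u, v} hT1 hT hb s fun i => (hκ i).exists_root s
  · exact squarefree_D s fun x hx => ne_four_of le_rfl (crit hc x hx)
  · refine independent s hT1 (loops_two (by rw [natDegree_map, hdeg]) (crit hc) (fun i => ?_)
      (fun i => (map_ne_zero s).2 (h0 i)) ?_)
    · obtain ⟨ζ, k, hk, h1, h2⟩ := (hκ i).exists_root s
      refine ⟨ζ, ?_, ?_⟩
      · have h3 := congrArg norm h1
        rw [norm_pow, norm_one] at h3
        exact (pow_eq_one_iff_of_nonneg (norm_nonneg _) hk).1 h3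
      · rw [← h2, ← map_pow, eval_map, eval₂_hom]
    · simp only [eval_map]
      exact hinj
  · have hev : ∀ i, T.eval₂ s (s (b i) ^ 2) = 0 := fun i => by
      rw [← map_pow, eval₂_hom, hb, map_zero]
    refine independent s hT1 (sqrt_even ?_ (crit hc) (fun i => ?_) (fun i => ?_)
      (fun i => (map_ne_zero s).2 (h0 i)) fun i j hij => hinj (s.injective ?_))
    · rw [natDegree_comp, natDegree_X_pow, natDegree_map, hdeg, mul_comm]
    · rw [eval_comp, eval_pow, eval_X, eval_map, hev]
    · rw [eval_comp, eval_pow, eval_X, neg_sq, eval_map, hev]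
    · simp only [map_pow]
      exact hij

theorem natDegree_intPoly {h : ℕ} {m : ℤ} (hm : m ≠ 0) (b : Fin h → ℤ) :
    (intPoly m b).natDegree = h := by
  unfold intPoly
  rw [natDegree_C_mul (by exact_mod_cast hm), natDegree_prod_of_monic _ _ fun i _ =>
    monic_X_sub_C _]
  simp only [natDegree_X_sub_C, Finset.sum_const, Finset.card_univ, Fintype.card_fin, smul_eq_mul,
    mul_one]

theorem isIntegral_intPoly {h : ℕ} (m : ℤ) (b : Fin h → ℤ) (i : ℕ) :
    IsIntegral ℤ ((intPoly m b).coeff i) := by
  have h : intPoly m b = (C m * ∏ i, (X - C (b i ^ 2))).map (Int.castRingHom ℚ) := by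
    unfold intPoly
    rw [Polynomial.map_mul, Polynomial.map_C, Polynomial.map_prod]
    congr 1
    refine Finset.prod_congr rfl fun i _ => ?_
    rw [Polynomial.map_sub, Polynomial.map_X, Polynomial.map_C]
    simp
  rw [h, coeff_map]
  exact isIntegral_algebraMap (R := ℤ) (A := ℚ)

theorem eval_intPoly {h : ℕ} (m : ℤ) (b : Fin h → ℤ) (i : Fin h) :
    (intPoly m b).eval ((b i : ℚ) ^ 2) = 0 := by
  unfold intPoly
  rw [eval_mul, eval_prod, Finset.prod_eq_zero (Finset.mem_univ i) (by simp), mul_zero]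

theorem comp_intPoly {h : ℕ} (m : ℤ) (b : Fin h → ℤ) (s : ℚ →+* ℂ) :
    ((intPoly m b).map s).comp (X ^ 2) = Fe m b := by
  unfold intPoly Fe
  rw [Polynomial.map_mul, map_C, Polynomial.map_prod, mul_comp, C_comp, prod_comp, map_intCast]
  congr 1
  refine Finset.prod_congr rfl fun i _ => ?_
  rw [Polynomial.map_sub, map_X, map_C, sub_comp, X_comp, C_comp, map_pow, map_intCast]

/-- *The criterion.* Let `K` be a number field, `T` a polynomial of degree `h ≥ 1` whose coefficients
are algebraic integers of `K`, and `C` the curve `v² = D(u)`, `D = u (T(u)² - 4)`, over `K`. Then `D`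
is of degree `2 h + 1`, the coordinate ring of `C` is a domain, and for algebraic integers `b_i` of
`K` with values `T(b_i²)` of the form `ζ + 1/ζ` with roots of unity `ζ` the symbols
`{f_i, f_i² - T f_i + 1}`, `f_i = ((T + 2) u + b_i v) / ((T + 2) u - b_i v)`, are unramified at all
discrete valuations of the function field of `C`. Let `s` be an embedding of `K` into `ℂ`
(`RegulatorsAt`).

(1) If neither `T(0)` nor a critical value of `T` at `s` lies in `[-2, 2]`, then `D` is squarefree,
that is, `C` is smooth, the affine part of a hyperelliptic curve of genus `h`.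

(2) Suppose that `|w - 2| + |w + 2| > 5` for `w = T(0)` and for all critical values `w` of `T` at
`s`. Let `b_1, ..., b_h` be elements of `K`, not `0`, such that the `b_i²` lie in different
components of the inverse image of `[-2, 2]` under `T` at `s`, and that the values `T(b_i²)` are of
the form `ζ + 1/ζ` with roots of unity. Then there are `h` loops in the complex points of `C` over `s`
such that the determinant of the regulators of the `h` symbols on the `h` loops does not vanish.

(3) The same holds for `h` different roots `b_i² ≠ 0` of `T`, if `|w - 2| + |w + 2| > 3 √2` for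
`w = T(0)` and for all critical values `w` of `T` at `s`.

*Integral roots.* Let `m ≠ 0` and `b_1, ..., b_h ≠ 0` be rational integers, with different absolute
values `|b_i|`, such that `h ≥ 3` or `|m b_i| ≥ 9` for some `i`. Then for `T = m ∏ (u - b_i²)` over
`ℚ` the polynomial `D` is squarefree, the `h` symbols are unramified, and their regulators on `h`
loops have a nonzero determinant. -/
theorem result.{u, v} (h : ℕ) (hh : 1 ≤ h) :
    (∀ (K : Type u) [Field K] [NumberField K] (T : K[X]), (∀ i, IsIntegral ℤ (T.coeff i)) →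
      T.natDegree = h →
      (D T).natDegree = 2 * h + 1 ∧ IsDomain (CRing (D T)) ∧
      (∀ (r : ℕ) (b : Fin r → K), (∀ i, IsIntegral ℤ (b i)) →
        (∀ i, Cyclotomic (T.eval (b i ^ 2))) → UnramifiedSymbols.{u, v} T b) ∧
      ∀ s : K →+* ℂ, RegulatorsAt h s T) ∧
    ∀ (m : ℤ) (b : Fin h → ℤ), m ≠ 0 → (∀ i, b i ≠ 0) → (Function.Injective fun i => |b i|) →
      (3 ≤ h ∨ ∃ i, 9 ≤ |m * b i|) → ∀ s : ℚ →+* ℂ,
        Squarefree (D (intPoly m b)) ∧
        UnramifiedSymbols.{0, v} (intPoly m b) (fun i => (b i : ℚ)) ∧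
        IndependentRegulators s (intPoly m b) fun i => (b i : ℚ) := by
  refine ⟨fun K _ _ T hT hdeg => criterion.{u, v} h hh K T hT hdeg, fun m b hm h0 hinj hc s => ?_⟩
  have hb : ∀ i j, b i ^ 2 = b j ^ 2 → i = j := fun i j hij =>
    hinj ((sq_eq_sq_iff_abs_eq_abs _ _).1 hij)
  have hcond : Cond m b := ⟨hm, hc⟩
  have hT1 : 1 ≤ (intPoly m b).natDegree := by rw [natDegree_intPoly hm b]; exact hh
  refine ⟨squarefree_D s fun x hx => ?_, ?_, independent s hT1 ?_⟩
  · rw [comp_intPoly] at hx ⊢
    exact ne_four_of four_le (crit_Fe h0 hb hcond x hx)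
  · refine unramified.{0, v} hT1 (isIntegral_intPoly m b) (fun i => ?_) s fun i => ?_
    · exact isIntegral_algebraMap (R := ℤ) (A := ℚ) (x := b i)
    · rw [eval_intPoly]
      exact cyclotomic_zero.exists_root s
  · rw [comp_intPoly]
    have h1 : (fun i => s (b i : ℚ)) = fun i => (b i : ℂ) := by
      funext i
      rw [map_intCast]
    rw [h1]
    exact int_even h0 hb hcond

end Pool.Agent.Results.MP_743d1e_nt.EvenQuotients
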