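import Pool.Agent.Results.MP_743d1e_nt.EllipseCriterion
import Pool.Agent.V5helper88.TQ.OddSqf
set_option autoImplicit false

/-!
# Beilinson's conjecture for `K_2` of curves: the hyperelliptic curves `v² = u G(u)² - 4`

Let `G` be a polynomial of degree `h` over a number field `K`. The curve `v² = D(u)`, `D = u G² - 4`, a
polynomial of degree `2 h + 1`, has the genus `h` if `D` is squarefree. It is the quotient of the curve
`C : z + 1/z = F(x)`, `F(x) = x G(x²)`, by the involution `(x, z) ↦ (-x, -1/z)`, with `u = x²` and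
`v = z - 1/z`. The functions `z` and `(x - b) / (x + b)` on `C` are mapped by the involution to `-1/z` and
`(x + b) / (x - b)`; so twice the symbol `{z, (x - b) / (x + b)}` is (rationally) the pull-back of a symbol on the
quotient, and this one is found explicitly: it is `{f, f² - T f + 1}`, `T = 2 - u G²`, with
`f = (v + b G) / (v - b G)`. In terms of `Z = - z²` one has `T = Z + 1/Z`, `f² - T f + 1 = (f - Z) (f - 1/Z)` and
`f = (Z (x + b) + (x - b)) / (Z (x - b) + (x + b))`; two Steinberg relations give the pull-back.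

The symbols are not of the form `{w, (u - a) / (u - a')}` for a function `w` whose divisor is supported at
infinity (there is only one point at infinity), as for the curves of the starting files.

The theorems below were found together with the case of the curves `v² = u (T(u)² - 4)` (`EvenQuotients`).
-/

namespace Pool.Agent.Results.MP_743d1e_nt.OddQuotients

open Polynomial

open Pool.Agent.Results.MP_743d1e_nt.EllipseCriterion (CritOutside Cyclotomic DifferentArcs
  Cyclotomic.exists_root)

open Pool.Agent.V5helper83.EQ (CRing HasLoops ne_four_of four_le)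

open Pool.Agent.V5helper88.TQ

open Pool.Agent.V5helper88.TQ.Odd

/-- The points `0`, `b_i`, `-b_i`. -/
def points {K : Type*} [Field K] {h : ℕ} (b : Fin h → K) : Fin (h + h + 1) → K :=
  Fin.cons 0 (Fin.append b fun i => -b i)

/-- The polynomial `m ∏ (u - b_i²)` with rational integers `m` and `b_i`. -/
noncomputable def intPoly {h : ℕ} (m : ℤ) (b : Fin h → ℤ) : ℚ[X] :=
  C (m : ℚ) * ∏ i, (X - C ((b i : ℚ) ^ 2))

/-- For all algebraic integers `b_i` of `K` with values `F(b_i) = b_i G(b_i²)` of the form `ζ + 1/ζ`, with roots of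
unity `ζ`, the symbols `{f_i, f_i² - T f_i + 1}` are unramified. -/
def UnramifiedAll.{u, v} {K : Type u} [Field K] (G : K[X]) : Prop :=
  ∀ (r : ℕ) (b : Fin r → K), (∀ i, IsIntegral ℤ (b i)) →
    (∀ i, Cyclotomic (b i * G.eval (b i ^ 2))) → UnramifiedSymbols.{u, v} G b

/-- The criteria at the embedding `s`, in terms of the critical values `V` of `F` at `s`. If
`|V - 2| + |V + 2| > 4` for all `V`, then `D` is squarefree. If `|V - 2| + |V + 2| > 5` for all `V`, the values
`F(b_i)` are of the form `ζ + 1/ζ` with roots of unity `ζ`, and the `2 h + 1` points `0`, `b_i`, `-b_i` lie in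
different components of the inverse image of `[-2, 2]` under `F`, then there are `h` loops on which the
determinant of the regulators of the `h` symbols does not vanish. The same holds for roots `b_i² ≠ 0` of `G`, the
`b_i²` different, if `|V - 2| + |V + 2| > 3 √2` for all `V`. -/
def CriteriaAt {K : Type*} [Field K] (s : K →+* ℂ) (G : K[X]) (h : ℕ) : Prop :=
  (CritOutside s (cover G) 4 → Squarefree (D G)) ∧
  (CritOutside s (cover G) 5 → ∀ b : Fin h → K, (∀ i, Cyclotomic (b i * G.eval (b i ^ 2))) →
    DifferentArcs s (cover G) (points b) → IndependentRegulators s G b) ∧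
  (CritOutside s (cover G) (3 * √2) → ∀ b : Fin h → K, (∀ i, G.eval (b i ^ 2) = 0) →
    (∀ i, b i ≠ 0) → (Function.Injective fun i => b i ^ 2) → IndependentRegulators s G b)

section

variable {K : Type*} [Field K] {h : ℕ} {G : K[X]}

theorem points_zero (b : Fin h → K) : points b 0 = 0 := rfl

theorem points_left (b : Fin h → K) (i : Fin h) : points b (Fin.castAdd h i).succ = b i := by
  unfold points
  rw [Fin.cons_succ, Fin.append_left]

theorem points_right (b : Fin h → K) (i : Fin h) : points b (Fin.natAdd h i).succ = -b i := by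
  unfold points
  rw [Fin.cons_succ, Fin.append_right]

theorem points_all {b : Fin h → K} {q : K → Prop} (h0 : q 0) (h1 : ∀ i, q (b i))
    (h2 : ∀ i, q (-b i)) (j : Fin (h + h + 1)) : q (points b j) := by
  refine Fin.cases ?_ (fun j => ?_) j
  · exact h0
  · induction j using Fin.addCases with
    | left i =>
      rw [points_left]
      exact h1 i
    | right i =>
      rw [points_right]
      exact h2 i

theorem cover_natDegree (s : K →+* ℂ) (hG : G ≠ 0) :
    ((cover G).map s).natDegree = 2 * G.natDegree + 1 := by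
  rw [natDegree_map]
  unfold cover
  have h1 : G.comp (X ^ 2) ≠ 0 := by
    rw [← expand_eq_comp_X_pow]
    exact (expand_ne_zero two_pos).2 hG
  rw [natDegree_mul X_ne_zero h1, natDegree_X, natDegree_comp, natDegree_X_pow]
  ring

theorem cover_eval (y : K) : (cover G).eval y = y * G.eval (y ^ 2) := by
  unfold cover
  rw [eval_mul, eval_X, eval_comp, eval_pow, eval_X]

theorem cover_eval_map (s : K →+* ℂ) (y : K) :
    ((cover G).map s).eval (s y) = s (y * G.eval (y ^ 2)) := by
  rw [eval_map, eval₂_hom, cover_eval]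

theorem crit_map {s : K →+* ℂ} {ρ : ℝ} (hc : CritOutside s (cover G) ρ) (x : ℂ)
    (hx : (derivative ((cover G).map s)).eval x = 0) :
    ρ < ‖((cover G).map s).eval x - 2‖ + ‖((cover G).map s).eval x + 2‖ := by
  rw [derivative_map, eval_map] at hx
  rw [eval_map]
  exact hc x hx

theorem sq_D {s : K →+* ℂ} {ρ : ℝ} (hρ : 4 ≤ ρ) (hc : CritOutside s (cover G) ρ) :
    Squarefree (D G) :=
  squarefree_D s fun x hx => ne_four_of hρ (hc x hx)

theorem root_norm {ζ : ℂ} {k : ℕ} (hk : k ≠ 0) (h1 : ζ ^ k = 1) : ‖ζ‖ = 1 := by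
  have h3 := congrArg norm h1
  rw [norm_pow, norm_one] at h3
  exact (pow_eq_one_iff_of_nonneg (norm_nonneg _) hk).1 h3

theorem indep_five (hG : G ≠ 0) (hdeg : G.natDegree = h) {s : K →+* ℂ}
    (hc : CritOutside s (cover G) 5) (b : Fin h → K)
    (hb : ∀ i, Cyclotomic (b i * G.eval (b i ^ 2))) (ha : DifferentArcs s (cover G) (points b)) :
    IndependentRegulators s G b := by
  refine independent s hG ?_
  rw [← cover_map]
  have key : ∀ i, ∃ ζ : ℂ, ‖ζ‖ = 1 ∧ ((cover G).map s).eval (s (b i)) = ζ + ζ⁻¹ := by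
    intro i
    obtain ⟨ζ, k, hk, h1, h2⟩ := (hb i).exists_root s
    exact ⟨ζ, root_norm hk h1, by rw [cover_eval_map, h2]⟩
  refine crit_two' (g := h + h) (by rw [cover_natDegree s hG, hdeg]; omega) (crit_map hc)
    (fun m => s (points b m)) ?_ ?_ (fun i => (Fin.castAdd h i).succ)
    (fun i => (Fin.natAdd h i).succ)
    ((Fin.succ_injective _).comp (Fin.castAdd_injective h h)) (fun i j hij => ?_)
    (fun i => ?_) fun i => ?_
  · refine points_all (q := fun y => ∃ ζ : ℂ, ‖ζ‖ = 1 ∧ ((cover G).map s).eval (s y) = ζ + ζ⁻¹)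
      ?_ key fun i => ?_
    · refine ⟨Complex.I, Complex.norm_I, ?_⟩
      rw [cover_eval_map, zero_mul, map_zero, Complex.inv_I, add_neg_cancel]
    · obtain ⟨ζ, h1, h2⟩ := key i
      refine ⟨-ζ, by rw [norm_neg, h1], ?_⟩
      rw [cover_eval_map] at h2 ⊢
      rw [neg_sq, neg_mul, map_neg, h2, inv_neg]
      ring
  · unfold DifferentArcs at ha
    simp only [eval_map]
    exact ha
  · have h3 := congrArg Fin.val (Fin.succ_injective _ hij)
    simp only [Fin.val_castAdd, Fin.val_natAdd] at h3
    have := i.2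
    omega
  · simp only [points_left]
  · simp only [points_right, map_neg]

theorem indep_sqrt (hG : G ≠ 0) (hdeg : G.natDegree = h) {s : K →+* ℂ}
    (hc : CritOutside s (cover G) (3 * √2)) (b : Fin h → K) (hb : ∀ i, G.eval (b i ^ 2) = 0)
    (h0 : ∀ i, b i ≠ 0) (hinj : Function.Injective fun i => b i ^ 2) :
    IndependentRegulators s G b := by
  refine independent s hG ?_
  rw [← cover_map]
  refine sqrt_odd (by rw [cover_natDegree s hG, hdeg]) (crit_map hc) ?_ (fun i => ?_)
    (fun i => ?_) (fun i => (map_ne_zero s).2 (h0 i)) fun i j hij => hinj (s.injective ?_)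
  · rw [← map_zero s, cover_eval_map, zero_mul]
  · rw [cover_eval_map, hb, mul_zero, map_zero]
  · rw [← map_neg, cover_eval_map, neg_sq, hb, mul_zero, map_zero]
  · rw [map_pow, map_pow]
    exact hij

theorem cyc_zero : Cyclotomic (0 : K) := by
  obtain ⟨ζ, hζ⟩ := IsAlgClosed.exists_pow_nat_eq (k := AlgebraicClosure K) (-1) two_pos
  refine ⟨ζ, 4, by norm_num, ?_, ?_⟩
  · calc ζ ^ 4 = (ζ ^ 2) ^ 2 := by ring
      _ = 1 := by rw [hζ]; norm_num
  · have h0 : ζ ≠ 0 := by
      rintro rfl
      norm_num at hζ
    rw [map_zero]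
    have h1 : ζ * (ζ + ζ⁻¹) = 0 := by
      rw [mul_add, mul_inv_cancel₀ h0, ← sq, hζ]
      norm_num
    exact ((mul_eq_zero.1 h1).resolve_left h0).symm

end

section integers

variable {h : ℕ}

theorem intPoly_eq (m : ℤ) (b : Fin h → ℤ) :
    intPoly m b = (C m * ∏ i, (X - C (b i ^ 2))).map (Int.castRingHom ℚ) := by
  unfold intPoly
  rw [Polynomial.map_mul, Polynomial.map_C, Polynomial.map_prod]
  congr 1
  refine Finset.prod_congr rfl fun i _ => ?_
  rw [Polynomial.map_sub, Polynomial.map_X, Polynomial.map_C]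
  simp

theorem isIntegral_intPoly (m : ℤ) (b : Fin h → ℤ) (i : ℕ) :
    IsIntegral ℤ ((intPoly m b).coeff i) := by
  rw [intPoly_eq, coeff_map]
  exact isIntegral_algebraMap (R := ℤ) (A := ℚ)

theorem natDegree_intPoly {m : ℤ} (hm : m ≠ 0) (b : Fin h → ℤ) :
    (intPoly m b).natDegree = h := by
  unfold intPoly
  rw [natDegree_C_mul (by exact_mod_cast hm), natDegree_prod_of_monic _ _ fun i _ =>
    monic_X_sub_C _]
  simp only [natDegree_X_sub_C, Finset.sum_const, Finset.card_univ, Fintype.card_fin, smul_eq_mul,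
    mul_one]

theorem intPoly_ne {m : ℤ} (hm : m ≠ 0) (b : Fin h → ℤ) : intPoly m b ≠ 0 :=
  mul_ne_zero (C_ne_zero.2 (by exact_mod_cast hm))
    (Finset.prod_ne_zero_iff.2 fun _ _ => X_sub_C_ne_zero _)

theorem cover_intPoly (s : ℚ →+* ℂ) (m : ℤ) (b : Fin h → ℤ) :
    (cover (intPoly m b)).map s = Fo m b := by
  have hfac : ∀ i, ((X - C ((b i : ℚ) ^ 2)).map s).comp (X ^ 2) = X ^ 2 - C ((b i : ℂ) ^ 2) := by
    intro i
    rw [Polynomial.map_sub, Polynomial.map_X, Polynomial.map_C, sub_comp, X_comp, C_comp, map_pow,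
      map_intCast]
  rw [cover_map]
  unfold intPoly Fo
  rw [Polynomial.map_mul, Polynomial.map_C, Polynomial.map_prod, map_intCast, mul_comp, C_comp,
    prod_comp, Finset.prod_congr rfl fun i _ => hfac i]
  ring

theorem crit_intPoly (s : ℚ →+* ℂ) {m : ℤ} {b : Fin h → ℤ} (h0 : ∀ i, b i ≠ 0)
    (hb : ∀ i j, b i ^ 2 = b j ^ 2 → i = j) (hc : Cond m b) :
    CritOutside s (cover (intPoly m b)) (3 * √2) := by
  intro x hx
  rw [← eval_map, ← derivative_map, cover_intPoly] at hx
  rw [← eval_map, cover_intPoly]
  exact crit_Fo h0 hb hc x hx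

end integers

/-- Let `K` be a number field, `G ≠ 0` a polynomial of degree `h` whose coefficients are algebraic integers of
`K`, `F(x) = x G(x²)`, `D = u G(u)² - 4` and `T = 2 - u G(u)²`.

(1) `D` has the degree `2 h + 1`, the coordinate ring of the affine curve `v² = D(u)` is a domain. If the `b_i` are
algebraic integers of `K` such that the values `F(b_i) = b_i G(b_i²)` are of the form `ζ + 1/ζ` with roots of unity
`ζ`, then the symbols `{f_i, f_i² - T f_i + 1}`, `f_i = (v + b_i G) / (v - b_i G)`, are unramified at all discrete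
valuations of the function field of this curve.

(2) Let `s` be an embedding of `K` into `ℂ`. If `|V - 2| + |V + 2| > 4` for all critical values `V` of `F` at `s`,
then `D` is squarefree (so that `v² = D(u)` is a hyperelliptic curve of genus `h`). If `|V - 2| + |V + 2| > 5` for
all critical values and `b_1, ..., b_h` are elements of `K` such that the values `F(b_i)` are of the form `ζ + 1/ζ`
with roots of unity `ζ` and the `2 h + 1` points `0`, `b_i`, `-b_i` lie in different components of the inverse
image of `[-2, 2]` under `F` at `s`, then there are `h` loops in the complex points over `s` of the open part of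
the curve `v² = D(u)`, such that the determinant of the regulators of the `h` symbols
`{f_i, f_i² - T f_i + 1}` on these loops does not vanish. The same holds for roots `b_i² ≠ 0` of `G`, the `b_i²`
different, if `|V - 2| + |V + 2| > 3 √2` for all critical values.

(3) For `K = ℚ`: let `m ≠ 0` and `b_i ≠ 0` be rational integers, the `|b_i|` different, `G = m ∏ (u - b_i²)`. If
`h ≥ 3`, or `|m b_i| ≥ 9` for some `i` (these are all but finitely many cases for `h = 1, 2`), then `D` is
squarefree, the symbols are unramified, and the regulators of the `h` symbols on `h` loops have a nonzero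
determinant. -/
theorem result.{u, v} (h : ℕ) :
    (∀ (K : Type u) [Field K] [NumberField K] (G : K[X]), G ≠ 0 → G.natDegree = h →
      (∀ i, IsIntegral ℤ (G.coeff i)) →
      (D G).natDegree = 2 * h + 1 ∧ IsDomain (CRing (D G)) ∧ UnramifiedAll.{u, v} G ∧
      ∀ s : K →+* ℂ, CriteriaAt s G h) ∧
    ∀ (m : ℤ) (b : Fin h → ℤ), m ≠ 0 → (∀ i, b i ≠ 0) → (Function.Injective fun i => |b i|) →
      (3 ≤ h ∨ ∃ i, 9 ≤ |m * b i|) →
      Squarefree (D (intPoly m b)) ∧
        UnramifiedSymbols.{0, v} (intPoly m b) (fun i => (b i : ℚ)) ∧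
        ∀ s : ℚ →+* ℂ, IndependentRegulators s (intPoly m b) fun i => (b i : ℚ) := by
  refine ⟨fun K _ _ G hG hdeg hint => ⟨by rw [natDegree_D hG, hdeg], isDomain hG,
    fun r b hb hκ => ?_, fun s => ⟨sq_D le_rfl, indep_five hG hdeg, indep_sqrt hG hdeg⟩⟩,
    fun m b hm h0 hinj hc => ?_⟩
  · obtain ⟨s⟩ : Nonempty (K →+* ℂ) := inferInstance
    exact unramified hG hint hb s fun i => (hκ i).exists_root s
  · have hb : ∀ i j, b i ^ 2 = b j ^ 2 → i = j := fun i j hij => hinj ((sq_eq_sq_iff_abs_eq_abs _ _).1 hij)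
    have hcr : ∀ s : ℚ →+* ℂ, CritOutside s (cover (intPoly m b)) (3 * √2) := fun s =>
      crit_intPoly s h0 hb ⟨hm, hc⟩
    have hev : ∀ i, (intPoly m b).eval ((b i : ℚ) ^ 2) = 0 := by
      intro i
      unfold intPoly
      rw [eval_mul, eval_prod, Finset.prod_eq_zero (Finset.mem_univ i) (by simp), mul_zero]
    obtain ⟨s⟩ : Nonempty (ℚ →+* ℂ) := inferInstance
    refine ⟨sq_D four_le (hcr s), unramified (intPoly_ne hm b) (isIntegral_intPoly m b) (fun i => ?_)
      s (fun i => ?_), fun s => indep_sqrt (intPoly_ne hm b) (natDegree_intPoly hm b) (hcr s) _ hev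
        (fun i => by exact_mod_cast h0 i) fun i j hij => hb i j (by
          have h1 : (b i : ℚ) ^ 2 = (b j : ℚ) ^ 2 := hij
          exact_mod_cast h1)⟩
    · exact isIntegral_algebraMap (R := ℤ) (A := ℚ) (x := b i)
    · rw [hev, mul_zero]
      exact (cyc_zero (K := ℚ)).exists_root s

end Pool.Agent.Results.MP_743d1e_nt.OddQuotients
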