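import Pool.Agent.V5helper77.BB.Model

/-!
# Beilinson's conjecture for `K_2` of curves: the family with a torsion divisor of order `2 g + 1`

Let `n` and `a_1, …, a_h` be elements of a number field `K`, `n ≠ 0`, the `a_i` different and not zero, and
`Q(u) = n u ∏ (u - a_i)²`. The curve `v² = D(u)` with `D = n u (Q - 4)`, a polynomial of degree `2 h + 2`, has
the genus `g = h` if `D` is squarefree. The function `w = (Q(u) - 2 + v ∏ (u - a_i)) / 2` satisfies
`w + 1/w = Q(u) - 2`; its divisor is `2 g + 1` times the difference of the two points at infinity. In the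
coordinates `t = 1/u`, `y = t^{g+1} (w + 1) / ∏ (u - a_i)` these are the curves `y² + f(t) y + n t^{2g+1} = 0`,
`f = - n ∏ (1 - a_i t)`, for `n = 1` considered by Dokchitser, de Jeu and Zagier: since `w = -1` at all points
with `u = 0` or `u = a_i`, the `g` symbols `{w, (u - a_i) / u}` are unramified at all discrete valuations of the
function field (also at those above the prime numbers), if `n` and the `a_i` are algebraic integers. The plane
curve `w + 1/w = Q(u) - 2` is singular at the points `(a_i, -1)`, so that these curves are not among the curves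
`z + 1/z = F(x)` with `g + 1` simple special points of the starting files.

Idea of the proof. The curve `C : z + 1/z = F(x)`, `F = √n x ∏ (x² - a_i)`, is a double cover, by
`(x, z) ↦ (u, w) = (x², z²)`. The theorems of the starting files give `2 g` loops on `C` on which the
regulators of the `2 g` symbols `{z, (x ∓ √a_i) / x}` have a nonzero determinant. The pull-back of
`{w, (u - a_i) / u}` is twice the sum of two of them, so the `g` symbols are independent on the images of `g`
of these loops. For rational integers `a_i` the critical values of `F` are bounded below by comparison with the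
values at half-integers `u = N + 1/2`.
-/

set_option autoImplicit false

namespace Pool.Agent.Results.MP_743d1e_nt.OddTorsionFamily

open Polynomial

open Pool.Agent.TH826.HD (PRing ppol pz isDomain_PRing)

open Pool.Agent.Results.MP_743d1e_nt.RealRooted (Cyclotomic UnramifiedSymbols
  IndependentRegulators)

open Pool.Agent.V5helper77.BB

section definitions

variable {K : Type*} [Field K] {h : ℕ}

/-- The polynomial `Q(u) = n u ∏ (u - a_i)²`. -/
noncomputable def Q (n : K) (a : Fin h → K) : K[X] := C n * X * (∏ i, (X - C (a i))) ^ 2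

/-- The polynomial `P(u) = Q(u) - 2`; the curve is `w + 1/w = P(u)`. -/
noncomputable def P (n : K) (a : Fin h → K) : K[X] := Q n a - C 2

/-- The polynomial `D(u) = n u (Q(u) - 4)`; the smooth model of the curve is `v² = D(u)`. -/
noncomputable def D (n : K) (a : Fin h → K) : K[X] := C n * X * (Q n a - C 4)

/-- The special points `0, a_1, …, a_h`, where `P` has the value `-2`, that is, `w = -1`. -/
def points (a : Fin h → K) : Fin (h + 1) → K := Fin.cons 0 a

/-- At the complex place `s` the critical values of `F` other than `-2` lie outside of the ellipse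
`|V - 2| + |V + 2| ≤ 5`. -/
def CritOutside (s : K →+* ℂ) (F : K[X]) : Prop :=
  ∀ x : ℂ, (derivative F).eval₂ s x = 0 → F.eval₂ s x ≠ -2 →
    5 < ‖F.eval₂ s x - 2‖ + ‖F.eval₂ s x + 2‖

/-- At the complex place `s` the critical values `V` of `F` other than `-2` satisfy `|V + 2| ≥ 9/64`. -/
def CritFar (s : K →+* ℂ) (F : K[X]) : Prop :=
  ∀ x : ℂ, (derivative F).eval₂ s x = 0 → F.eval₂ s x ≠ -2 → 9 / 64 ≤ ‖F.eval₂ s x + 2‖

/-- The complex number is real and positive. -/
def IsPos (z : ℂ) : Prop := z.im = 0 ∧ 0 < z.re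

/-- `h ≥ 5`, or `|n| ≥ 49`, or `|n a_i| ≥ 193` for some `i`. -/
def Large {h : ℕ} (n : ℤ) (a : Fin h → ℤ) : Prop := 5 ≤ h ∨ 49 ≤ |n| ∨ ∃ i, 193 ≤ |n * a i|

end definitions

section proofs

variable {K : Type*} [Field K] {h : ℕ} {n : K} {a : Fin h → K}

theorem P_map (s : K →+* ℂ) : (P n a).map s = QC (s n) (fun i => s (a i)) - C 2 := by
  have e : P n a = QC n a - C 2 := rfl
  rw [e, Polynomial.map_sub, QC_map, Polynomial.map_C, map_ofNat]

theorem P_ev (s : K →+* ℂ) (x : ℂ) :
    (P n a).eval₂ s x = (QC (s n) fun i => s (a i)).eval x - 2 := by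
  rw [← eval_map, P_map, eval_sub, eval_C]

theorem P_der (s : K →+* ℂ) (x : ℂ) :
    (derivative (P n a)).eval₂ s x = (derivative (QC (s n) fun i => s (a i))).eval x := by
  rw [← eval_map, ← derivative_map, P_map, derivative_sub, derivative_C, sub_zero]

theorem cyc [CharZero K] : Cyclotomic (-2 : K) := by
  refine ⟨-1, 2, by norm_num, by norm_num, ?_⟩
  rw [map_neg, map_ofNat]
  norm_num

theorem P_point (i : Fin (h + 1)) : (P n a).eval (points a i) = -2 := by
  have e : P n a = QC n a - C 2 := rfl
  rw [e, eval_sub, eval_C]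
  refine Fin.cases ?_ (fun i => ?_) i
  · show (QC n a).eval 0 - 2 = -2
    rw [QC_eval_zero]
    ring
  · show (QC n a).eval (a i) - 2 = -2
    rw [QC_eval_root]
    ring

theorem unram.{u, v} {K : Type u} [Field K] [NumberField K] {h : ℕ} {n : K} {a : Fin h → K}
    (hn : IsIntegral ℤ n) (ha : ∀ i, IsIntegral ℤ (a i)) :
    UnramifiedSymbols.{u, v} (P n a) (points a) := by
  have h2 : IsIntegral ℤ (2 : K) := by
    have h3 := isIntegral_algebraMap (R := ℤ) (A := K) (x := 2)
    rwa [map_ofNat] at h3
  refine Pool.Agent.Results.MP_743d1e_nt.RealRooted.unramified (κ := -2)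
    (IntC.sub (IntC.QC' hn ha) (IntC.C' h2)) cyc (fun i => ?_) P_point
  refine Fin.cases ?_ (fun i => ?_) i
  · exact isIntegral_zero
  · exact ha i

theorem outside (hn : n ≠ 0) [CharZero K] (hinj : Function.Injective a) (h0 : ∀ i, a i ≠ 0)
    {s : K →+* ℂ} (hc : CritOutside s (P n a)) :
    Squarefree (D n a) ∧ IndependentRegulators s (P n a) (points a) := by
  have hc' : ∀ x : ℂ, (derivative (QC (s n) fun i => s (a i))).eval x = 0 →
      (QC (s n) fun i => s (a i)).eval x ≠ 0 →
      5 < ‖(QC (s n) fun i => s (a i)).eval x - 4‖ + ‖(QC (s n) fun i => s (a i)).eval x‖ := by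
    intro x hx hv
    have h1 := hc x (by rw [P_der]; exact hx) (by
      rw [P_ev]
      intro h2
      exact hv (by linear_combination h2))
    rw [P_ev] at h1
    have e1 : (QC (s n) fun i => s (a i)).eval x - 2 - 2 =
        (QC (s n) fun i => s (a i)).eval x - 4 := by ring
    have e2 : (QC (s n) fun i => s (a i)).eval x - 2 + 2 =
        (QC (s n) fun i => s (a i)).eval x := by ring
    rwa [e1, e2] at h1
  constructor
  · refine sqfree hn (sep_of_crit s fun x hx hv => ?_)
    have h1 := hc' x hx (by rw [hv]; norm_num)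
    rw [hv] at h1
    norm_num at h1
  · refine indep_ell ((map_ne_zero s).2 hn) (fun i => (map_ne_zero s).2 (h0 i))
      (fun i j hij => hinj (s.injective hij)) ?_ rfl (fun i => rfl) hc'
    rw [P_map]
    congr 1

theorem positive [CharZero K] (hinj : Function.Injective a) {s : K →+* ℂ}
    (hsq : Squarefree (D n a)) (hsn : IsPos (s n)) (hsa : ∀ i, IsPos (s (a i)))
    (hc : ∀ y : ℝ, 0 < y → (∀ i, y - (s (a i)).re ≠ 0) → y⁻¹ + 2 * ∑ i, (y - (s (a i)).re)⁻¹ = 0 →
      9 / 64 ≤ (s n).re * (y * ∏ i, (y - (s (a i)).re) ^ 2)) :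
    IndependentRegulators s (P n a) (points a) := by
  have en : s n = (((s n).re : ℝ) : ℂ) := Complex.ext (by simp) (by simpa using hsn.1)
  have ea : ∀ i, s (a i) = (((s (a i)).re : ℝ) : ℂ) := fun i =>
    Complex.ext (by simp) (by simpa using (hsa i).1)
  have eQ : (QC (s n) fun i => s (a i)) =
      QC (((s n).re : ℝ) : ℂ) fun i => (((s (a i)).re : ℝ) : ℂ) := by
    rw [← en]
    congr 1
    funext i
    exact ea i
  have h4 := (sep_of_sqfree (n := n) (a := a) hsq).map (f := s)
  rw [map_sub_ofNat, eQ] at h4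
  refine indep (n := (s n).re) (α := fun i => (s (a i)).re) hsn.2 (fun i => (hsa i).2)
    (fun i j hij => hinj (s.injective (by rw [ea i, ea j]; exact congrArg _ hij))) ?_ rfl
    (fun i => ea i) ?_ hc
  · rw [P_map, eQ]
    unfold QQ QC
    rw [Complex.ofReal_ofNat]
  · unfold QQ
    rw [Complex.ofReal_ofNat]
    exact h4

theorem far [CharZero K] (hinj : Function.Injective a) {s : K →+* ℂ}
    (hsq : Squarefree (D n a)) (hsn : IsPos (s n)) (hsa : ∀ i, IsPos (s (a i)))
    (hc : CritFar s (P n a)) : IndependentRegulators s (P n a) (points a) := by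
  refine positive hinj hsq hsn hsa fun y hy h0 hs => ?_
  have en : s n = (((s n).re : ℝ) : ℂ) := Complex.ext (by simp) (by simpa using hsn.1)
  have ea : ∀ i, s (a i) = (((s (a i)).re : ℝ) : ℂ) := fun i =>
    Complex.ext (by simp) (by simpa using (hsa i).1)
  have hy0 : (y : ℂ) ≠ 0 := by exact_mod_cast hy.ne'
  have h0' : ∀ i, (y : ℂ) - s (a i) ≠ 0 := fun i hi => h0 i (by
    rw [ea i] at hi
    exact_mod_cast hi)
  have hval : (QC (s n) fun i => s (a i)).eval (y : ℂ) =
      (((s n).re * (y * ∏ i, (y - (s (a i)).re) ^ 2) : ℝ) : ℂ) := by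
    rw [QC_eval, ← Finset.prod_pow]
    push_cast
    rw [← en]
    congr 3
    funext i
    rw [← ea i]
  have hpos : 0 < (s n).re * (y * ∏ i, (y - (s (a i)).re) ^ 2) :=
    mul_pos hsn.2 (mul_pos hy (Finset.prod_pos fun i _ => by
      have := h0 i
      positivity))
  have h1 := hc y (by
    rw [P_der, QC_der hy0 h0']
    have h2 : (y : ℂ)⁻¹ + (∑ i, ((y : ℂ) - s (a i))⁻¹ + ∑ i, ((y : ℂ) - s (a i))⁻¹) = 0 := by
      have h3 : ((y⁻¹ + 2 * ∑ i, (y - (s (a i)).re)⁻¹ : ℝ) : ℂ) = 0 := by rw [hs, Complex.ofReal_zero]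
      push_cast at h3
      simp only [← ea] at h3
      linear_combination h3
    rw [h2, mul_zero]) (by
    rw [P_ev, hval]
    intro h2
    have h3 : (((s n).re * (y * ∏ i, (y - (s (a i)).re) ^ 2) : ℝ) : ℂ) = 0 := by
      linear_combination h2
    exact hpos.ne' (by exact_mod_cast h3))
  rw [P_ev, hval, sub_add_cancel, Complex.norm_real, Real.norm_eq_abs, abs_of_pos hpos] at h1
  exact h1

/-- There are only finitely many cases for each `h` which are not `Large` (none for `h ≥ 5`). -/
theorem finite_small (h : ℕ) :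
    {p : ℤ × (Fin h → ℤ) | p.1 ≠ 0 ∧ (∀ i, p.2 i ≠ 0) ∧ ¬ Large p.1 p.2}.Finite := by
  refine ((Set.finite_Icc (-48 : ℤ) 48).prod
    (Set.Finite.pi' fun _ : Fin h => Set.finite_Icc (-192 : ℤ) 192)).subset ?_
  rintro ⟨n, a⟩ ⟨hn, -, hL⟩
  unfold Large at hL
  push Not at hL
  obtain ⟨-, h1, h2⟩ := hL
  have h3 : ∀ i, |a i| ≤ 192 := by
    intro i
    have h4 := h2 i
    rw [abs_mul] at h4
    have h5 := Int.one_le_abs hn
    have h6 := abs_nonneg (a i)
    nlinarith
  have h7 := abs_le.1 (Int.lt_add_one_iff.1 h1 : |n| ≤ 48)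
  exact ⟨⟨h7.1, h7.2⟩, fun i => ⟨(abs_le.1 (h3 i)).1, (abs_le.1 (h3 i)).2⟩⟩

end proofs

/-- Let `K` be a number field, `h ≥ 0`, `n ≠ 0` and `a_1, …, a_h` in `K`, `Q(u) = n u ∏ (u - a_i)²`, `P = Q - 2` and
`D = n u (Q - 4)`.

(1) `D` has the degree `2 h + 2`. The coordinate ring of the plane curve `w + 1/w = P(u)` is a domain, and its
fraction field `M` is generated by `u` and an element `v` with `v² = D(u)`, `2 w = P(u) + v ∏ (u - a_i)`; so the
smooth model is the hyperelliptic curve `v² = D(u)`, of genus `h` if `D` is squarefree. If `n` and the `a_i` are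
algebraic integers, then the symbols `{w, (u - b) / (u - b')}`, `b, b'` in `{0, a_1, …, a_h}`, are unramified at all
discrete valuations of `M`.

(2) Let the `a_i` be different and not zero, and `s` an embedding of `K` into `ℂ`. If the critical values of `P`
at `s` other than `-2` lie outside of the ellipse `|V - 2| + |V + 2| ≤ 5`, then `D` is squarefree, and there are `h`
loops in the complex points over `s` on which the determinant of the regulators of the `h` symbols
`{w, (u - a_i) / u}` does not vanish. If `D` is squarefree, `s(n)` and all `s(a_i)` are real and positive, and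
`|V + 2| ≥ 9/64` for the critical values `V ≠ -2`, then there are also such loops.

(3) For `K = ℚ`: let `n ≠ 0` and the `a_i` be rational integers, the `a_i` different and not zero. If `h ≥ 5`, or
`|n| ≥ 49`, or `|n a_i| ≥ 193` for some `i`, then `D` is squarefree, the symbols are unramified, and the regulators
of the `h` symbols `{w, (u - a_i) / u}` on `h` loops have a nonzero determinant. These are all but finitely many
cases. For all `h`, `n` the last two statements also hold, if `n` and all `a_i` are positive and `D` is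
squarefree, with the only exception `n = 1`, `{a_i} = {1, 2}`. -/
theorem result.{u, v} (h : ℕ) :
    (∀ (K : Type u) [Field K] [NumberField K] (n : K) (a : Fin h → K), n ≠ 0 →
      (D n a).natDegree = 2 * h + 2 ∧ IsDomain (PRing (P n a)) ∧
      (∀ (M : Type v) [Field M] [Algebra (PRing (P n a)) M] [IsFractionRing (PRing (P n a)) M],
        ∃ v : M, v ^ 2 = algebraMap (PRing (P n a)) M (ppol (P n a) (D n a)) ∧
          2 * algebraMap (PRing (P n a)) M (pz (P n a)) =
            algebraMap (PRing (P n a)) M (ppol (P n a) (P n a)) +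
              v * algebraMap (PRing (P n a)) M (ppol (P n a) (∏ i, (X - C (a i))))) ∧
      (IsIntegral ℤ n → (∀ i, IsIntegral ℤ (a i)) → UnramifiedSymbols.{u, v} (P n a) (points a)) ∧
      (Function.Injective a → (∀ i, a i ≠ 0) → ∀ s : K →+* ℂ,
        (CritOutside s (P n a) →
          Squarefree (D n a) ∧ IndependentRegulators s (P n a) (points a)) ∧
        (Squarefree (D n a) → IsPos (s n) → (∀ i, IsPos (s (a i))) → CritFar s (P n a) →
          IndependentRegulators s (P n a) (points a)))) ∧
    {p : ℤ × (Fin h → ℤ) | p.1 ≠ 0 ∧ (∀ i, p.2 i ≠ 0) ∧ ¬ Large p.1 p.2}.Finite ∧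
    ∀ (n : ℤ) (a : Fin h → ℤ), n ≠ 0 → Function.Injective a → (∀ i, a i ≠ 0) →
      (Large n a → Squarefree (D (n : ℚ) fun i => (a i : ℚ))) ∧
      (Large n a ∨ (0 < n ∧ (∀ i, 0 < a i) ∧ Squarefree (D (n : ℚ) fun i => (a i : ℚ)) ∧
          ¬(n = 1 ∧ h = 2 ∧ (∃ i, a i = 1) ∧ ∃ i, a i = 2)) →
        UnramifiedSymbols.{0, v} (P (n : ℚ) fun i => (a i : ℚ)) (points fun i => (a i : ℚ)) ∧
        ∀ s : ℚ →+* ℂ,
          IndependentRegulators s (P (n : ℚ) fun i => (a i : ℚ)) (points fun i => (a i : ℚ))) := by
  refine ⟨fun K _ _ n a hn => ⟨disc_natDegree hn, isDomain_PRing ?_, fun M _ _ _ => model (P := P n a) rfl,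
    unram, fun hinj h0 s => ⟨outside hn hinj h0, fun hsq hsn hsa hc => far hinj hsq hsn hsa hc⟩⟩,
    finite_small h, fun n a hn hinj h0 => ?_⟩
  · have h1 : (P n a).natDegree = 2 * h + 1 := QC_sub_natDegree hn 2
    omega
  · have hnQ : (n : ℚ) ≠ 0 := by exact_mod_cast hn
    have hinjQ : Function.Injective fun i => (a i : ℚ) := fun i j hij => hinj (Int.cast_injective hij)
    have h0Q : ∀ i, (a i : ℚ) ≠ 0 := fun i => by exact_mod_cast h0 i
    have hout : Large n a → ∀ s : ℚ →+* ℂ, CritOutside s (P (n : ℚ) fun i => (a i : ℚ)) := by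
      intro hbig s x hx hv
      have hfun : (fun i => s (a i : ℚ)) = fun i => ((a i : ℤ) : ℂ) := funext fun i =>
        map_intCast s (a i)
      have hsn : s (n : ℚ) = (n : ℂ) := map_intCast s n
      rw [P_der, hfun, hsn] at hx
      rw [P_ev, hfun, hsn] at hv ⊢
      have h1 : (1 : ℝ) ≤ ‖(n : ℂ)‖ := by
        rw [Complex.norm_intCast]
        exact_mod_cast Int.one_le_abs hn
      have hN : 9 / 2 < ‖(n : ℂ)‖ * (Pool.Agent.N686.DI.mm h * Pool.Agent.N686.DI.mm (h + 1)) ∨
          ∃ i, 96 < ‖(n : ℂ)‖ * (|(a i : ℝ)| - 1 / 2) := by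
        rcases hbig with h5 | h49 | ⟨i, hi⟩
        · have h2 := mm_mul_five h5
          left
          nlinarith
        · have h2 := mm_mul_ge h
          have h3 : (49 : ℝ) ≤ ‖(n : ℂ)‖ := by
            rw [Complex.norm_intCast]
            exact_mod_cast h49
          left
          nlinarith
        · right
          refine ⟨i, ?_⟩
          rw [Complex.norm_intCast]
          have h3 : (193 : ℝ) ≤ |(n : ℝ)| * |(a i : ℝ)| := by
            rw [← abs_mul]
            exact_mod_cast hi
          have h4 : (1 : ℝ) ≤ |(a i : ℝ)| := by exact_mod_cast Int.one_le_abs (h0 i)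
          nlinarith [abs_nonneg (n : ℝ)]
      have h2 := int_ell h0 hinj hN hx (fun h3 => hv (by rw [h3]; ring))
      have e1 : (QC (n : ℂ) fun i => ((a i : ℤ) : ℂ)).eval x - 2 - 2 =
          (QC (n : ℂ) fun i => ((a i : ℤ) : ℂ)).eval x - 4 := by ring
      have e2 : (QC (n : ℂ) fun i => ((a i : ℤ) : ℂ)).eval x - 2 + 2 =
          (QC (n : ℂ) fun i => ((a i : ℤ) : ℂ)).eval x := by ring
      rw [e1, e2]
      exact h2
    refine ⟨fun hbig => ?_, fun hcase => ⟨unram ?_ fun i => ?_, fun s => ?_⟩⟩
    · obtain ⟨s⟩ : Nonempty (ℚ →+* ℂ) := inferInstance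
      exact (outside hnQ hinjQ h0Q (hout hbig s)).1
    · exact isIntegral_algebraMap (R := ℤ) (A := ℚ) (x := n)
    · exact isIntegral_algebraMap (R := ℤ) (A := ℚ) (x := a i)
    · rcases hcase with hbig | ⟨hn0, ha0, hsq, hex⟩
      · exact (outside hnQ hinjQ h0Q (hout hbig s)).2
      · have hsn : s (n : ℚ) = (n : ℂ) := map_intCast s n
        have hsa : ∀ i, s (a i : ℚ) = (a i : ℂ) := fun i => map_intCast s (a i)
        have hre : ∀ i, (s (a i : ℚ)).re = (a i : ℝ) := fun i => by
          rw [hsa, Complex.intCast_re]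
        have hnre : (s (n : ℚ)).re = (n : ℝ) := by rw [hsn, Complex.intCast_re]
        refine positive hinjQ hsq ⟨?_, ?_⟩ (fun i => ⟨?_, ?_⟩) fun y hy h1 h2 => ?_
        · rw [hsn, Complex.intCast_im]
        · rw [hnre]
          exact_mod_cast hn0
        · rw [hsa, Complex.intCast_im]
        · rw [hre]
          exact_mod_cast ha0 i
        · simp only [hre] at h1 h2 ⊢
          rw [hnre]
          refine int_crit (by exact_mod_cast hn0) a ha0 hinj (fun h3 => hex ?_) hy h1 h2
          obtain ⟨h4, h5, h6, h7⟩ := h3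
          refine ⟨?_, h4, h6, h7⟩
          have h8 : (n : ℝ) < 2 := by linarith
          have h9 : n < 2 := by exact_mod_cast h8
          omega

end Pool.Agent.Results.MP_743d1e_nt.OddTorsionFamily
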