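import Pool.Agent.V5helper77.TL.Int

/-!
# Beilinson's conjecture for `K_2` of curves: smooth plane curves of every degree

Let `b_0, …, b_m` be different elements of a number field `K`, and `λ ≠ 0`. We consider the plane curves
`λ ∏_i L_i = 1`, `L_i = y - b_i x + e_i`, of degree `m + 1`. All `L_i` are units of the coordinate ring, and
three lines `i`, `j`, `k` give the symbol `{(b_j - b_k) / (b_j - b_i) · L_i / L_k, (b_k - b_i) / (b_j - b_i) · L_j / L_k}`
(curves and elements of this kind were considered by Liu and de Jeu, who proved the independence in general by a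
limit calculation). We show that these symbols are unramified at all discrete valuations (also at those above
the prime numbers) if `λ`, the `b_i`, `e_i` and the `x`-coordinates `(e_j - e_i) / (b_j - b_i)` of the
intersection points of the lines are algebraic integers, for example for the tangent lines `y = b_i x - b_i²` of
a parabola.

Idea of the proof. *Unramified symbols:* for every unit `z` the symbol of three lines is the sum of the symbols
`{L_i / (z (b_j - b_i)), L_j / (z (b_i - b_j))}` over the three cyclic permutations, and for every discrete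
valuation these are symbols of units or trivial for a suitable `z` (`z = x` or `z = 1`). *Regulators:* for the
tangent lines of a parabola the curve is the quotient of the curve `λ P(x) P(y) = 1`, `P = ∏ (x - b_i)`, by the
exchange of `x` and `y`; the pull-back of the symbol is
`{X_i / X_k, Y_j / Y_k} - {X_j / X_k, Y_i / Y_k}`, `X_i = x - b_i`, `Y_i = y - b_i`. So the theorem of the
starting file `MP_a09a03_nt.CriticalProduct` on the curves `λ P(x) Q(y) = 1` can be used: there is no large
parameter.
-/

set_option autoImplicit false

namespace Pool.Agent.Results.MP_743d1e_nt.SmoothPlaneCurves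

open Pool.Agent.TH826.MK (KQ symb Unramified)

open Pool.Agent.V5helper77.TL

/-- The symbols of all triples of lines have unramified images in `K_2 ⊗ ℚ` of all fields `L` with a
homomorphism from the coordinate ring to `L` (for example the function field of the curve). -/
def UnramifiedSymbols.{u, v} {K : Type u} [Field K] {m : ℕ} (lam : K) (b e : Fin (m + 1) → K) :
    Prop :=
  ∀ i j k, i ≠ j → i ≠ k → j ≠ k → ∀ (L : Type v) [Field L] (f : LRing lam b e →+* L),
    KQ.map 2 f (symb (tri lam b e i j k)) ∈ Unramified L 2

/-- The curve is smooth in the projective plane (so its genus is `m (m - 1) / 2`), its coordinate ring is a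
domain, and `m (m - 1) / 2` of the symbols have independent regulators. -/
def GenusMany {K : Type*} [Field K] {m : ℕ} (σ : K →+* ℂ) (lam : K) (b e : Fin (m + 1) → K) : Prop :=
  IsDomain (LRing lam b e) ∧ SmoothProjective σ lam b e ∧ IndependentRegulators σ lam b e

/-- Let `m ≥ 2`, `K` a number field, `b_0, …, b_m` different elements of `K`, and `e_0, …, e_m` in `K`.

(1) If `λ`, the `b_i`, the `e_i` and the `(e_j - e_i) / (b_j - b_i)` are algebraic integers, then the symbols of
all triples of lines on the curve `λ ∏_i (y - b_i x + e_i) = 1` are unramified at all discrete valuations of all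
fields over the coordinate ring. This applies to `e_i = b_i²`, if `λ` and the `b_i` are algebraic integers.

(2) Let `σ` be an embedding of `K` into `ℂ`. If no three of the lines have a common point, then there is a `B`
such that for all `λ` in `K` with `|σ(λ)| ≥ B` the curve is smooth in the projective plane, its coordinate ring
is a domain, and there are `m (m - 1) / 2` loops in its complex points over `σ` on which the regulators of the
`m (m - 1) / 2` symbols of the lines `i`, `j`, `m` (`i < j < m`) have a nonzero determinant.

(3) For `e_i = b_i²` and every `λ ≠ 0` this also holds if `|λ V W| > 1` at `σ` for all critical values `V`, `W`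
of `P = ∏ (x - b_i)`.

(4) Let `n ≠ 0` and `b_0, …, b_m` be rational integers, the `b_i` different. If `m ≥ 4`, or `m = 3` and
`|n| ≥ 4`, or `|n| ≥ 8`, or `|n| (b_i - b_j)² > 64` for some `i`, `j`, then (1) and (3) hold for the curve
`n ∏_i (y - b_i x + b_i²) = 1` over `ℚ`. For `b_0 = 0` (one can replace all `b_i` by `b_i + t`) these are all but
finitely many cases. -/
theorem result.{u, v} (m : ℕ) (hm : 2 ≤ m) :
    Fintype.card (Pairs m) = m * (m - 1) / 2 ∧
    (∀ (K : Type u) [Field K] [NumberField K] (b e : Fin (m + 1) → K), Function.Injective b →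
      (IntegralPoints b e → ∀ lam, IsIntegral ℤ lam → UnramifiedSymbols.{u, v} lam b e) ∧
      ((∀ i, IsIntegral ℤ (b i)) → IntegralPoints b (squares b)) ∧
      ∀ σ : K →+* ℂ,
        (GeneralPosition b e → ∃ B : ℝ, ∀ lam : K, B ≤ ‖σ lam‖ → GenusMany σ lam b e) ∧
        ∀ lam : K, lam ≠ 0 → CriticalProduct σ lam b → GenusMany σ lam b (squares b)) ∧
    {p : ℤ × (Fin (m + 1) → ℤ) | p.1 ≠ 0 ∧ p.2 0 = 0 ∧ ¬ Large p.1 p.2}.Finite ∧
    ∀ (n : ℤ) (b : Fin (m + 1) → ℤ), n ≠ 0 → Function.Injective b → Large n b →
      UnramifiedSymbols.{0, v} (n : ℚ) (fun i => (b i : ℚ)) (squares fun i => (b i : ℚ)) ∧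
      ∀ σ : ℚ →+* ℂ, GenusMany σ (n : ℚ) (fun i => (b i : ℚ)) (squares fun i => (b i : ℚ)) := by
  have key : ∀ {K : Type u} [Field K] [NumberField K] {b : Fin (m + 1) → K},
      Function.Injective b → ∀ (σ : K →+* ℂ) (lam : K), lam ≠ 0 → CriticalProduct σ lam b →
        GenusMany σ lam b (squares b) := fun hb σ lam hl hc =>
    ⟨isDomain hl (by omega) hb, smoothProjective hl hb (smoothAffine_sq hc), exists_loops hl hb hc⟩
  have key0 : ∀ {b : Fin (m + 1) → ℚ},
      Function.Injective b → ∀ (σ : ℚ →+* ℂ) (lam : ℚ), lam ≠ 0 → CriticalProduct σ lam b →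
        GenusMany σ lam b (squares b) := fun hb σ lam hl hc =>
    ⟨isDomain hl (by omega) hb, smoothProjective hl hb (smoothAffine_sq hc), exists_loops hl hb hc⟩
  refine ⟨card_pairs m, fun K _ _ b e hb => ⟨fun hI lam hlam i j k hij hik hjk L _ f =>
    tri_mem_unramified hlam hI hb hij hik hjk f, fun hi => integralPoints_sq hi hb,
    fun σ => ⟨fun hg => ?_, fun lam hl hc => key hb σ lam hl hc⟩⟩, finite_small m,
    fun n b hn hb hL => ?_⟩
  · obtain ⟨B, hB⟩ := large (e := e) σ (by omega) hb hg
    refine ⟨max B 1, fun lam hlam => ?_⟩
    obtain ⟨h1, h2⟩ := hB lam ((le_max_left _ _).trans hlam)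
    refine ⟨isDomain ?_ (by omega) hb, h1, h2⟩
    rintro rfl
    have h3 := (le_max_right B 1).trans hlam
    rw [map_zero, norm_zero] at h3
    linarith
  · have hbQ : Function.Injective fun i => (b i : ℚ) := fun i j hij => hb (Int.cast_injective hij)
    have hi : ∀ z : ℤ, IsIntegral ℤ (z : ℚ) := fun z =>
      isIntegral_algebraMap (R := ℤ) (A := ℚ) (x := z)
    exact ⟨fun i j k hij hik hjk L _ f => tri_mem_unramified (hi n)
      (integralPoints_sq (fun i => hi (b i)) hbQ) hbQ hij hik hjk f,
      fun σ => key0 hbQ σ _ (by exact_mod_cast hn) (criticalProduct hm hn hb hL σ)⟩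

end Pool.Agent.Results.MP_743d1e_nt.SmoothPlaneCurves
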